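import Mathlib
import Pool.Agent.U684.QC.Asm
import Pool.Agent.W978.QP.Mm
import Pool.Agent.W973.QP.TG
import Pool.Agent.W108.QP.Ker
import Pool.Agent.W215.QP.Fe
import Pool.Agent.W305.QP.Rel
import Pool.Agent.W101.QP.Int
import Pool.Agent.W372.QP.Cnt
import Pool.Agent.H423R2.RGL.FGF
import Pool.Agent.H423R2.RGL.CGF

set_option autoImplicit false

/-!
# Real zeros of quadratic `L(s,χ)` when all the values at the small primes are prescribed

The sets `S` of prescribed primes grow with the conductor and the bounds are uniform in `S`, in the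
prescribed values and in the prescribed parity: `S` may be the set of all primes up to `log X / 6`.
-/

namespace Pool.Agent.Results.MP_0016c7_nt.AllSmallPrimesPrescribed

open MeasureTheory

/-- The pairs `(N, χ)`, `1 ≤ N ≤ X`, with `χ` a nontrivial primitive quadratic Dirichlet character
modulo `N` such that `χ(-1) = s` and `χ(q) = v q` for all `q ∈ S`. -/
def Class (S : Finset ℕ) (v : ℕ → ℤ) (s : ℤ) (X : ℕ) : Set (Σ N : ℕ, DirichletCharacter ℂ N) :=
  {p | (p.1 ≠ 0 ∧ p.2.IsPrimitive ∧ p.2 ^ 2 = 1 ∧ p.2 ≠ 1) ∧ p.1 ≤ X ∧ p.2 (-1) = (s : ℂ) ∧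
    ∀ q ∈ S, p.2 (q : ZMod p.1) = (v q : ℂ)}

/-- The completed L-function `N^(σ/2) Λ(σ, χ)` at real `σ`. -/
noncomputable def Lam {N : ℕ} [NeZero N] (χ : DirichletCharacter ℂ N) (σ : ℝ) : ℝ :=
  (N : ℝ) ^ (σ / 2) * (DirichletCharacter.completedLFunction χ (σ : ℂ)).re

/-- `L(σ,χ)` is real and positive for all `0 < σ < 1` at distance at least `δ` from `1/2`, and all
averages of the completed function over real intervals of length at least `2 δ` are positive. -/
def Positive (δ : ℝ) (p : Σ N : ℕ, DirichletCharacter ℂ N) : Prop :=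
  ∃ _ : NeZero p.1,
    (∀ σ : ℝ, 0 < σ → σ < 1 → δ ≤ |σ - 1 / 2| →
      (DirichletCharacter.LFunction p.2 (σ : ℂ)).im = 0 ∧
      0 < (DirichletCharacter.LFunction p.2 (σ : ℂ)).re) ∧
    ∀ a b : ℝ, a < b → 2 * δ ≤ b - a → 0 < ∫ σ in a..b, Lam p.2 σ

open Pool.Agent.H306R2.RZ Pool.Agent.H306R2.RG Pool.Agent.U684.QC

theorem pos_of {X R : ℝ} {p : Σ N : ℕ, DirichletCharacter ℂ N}
    (h : Zr X R p ∧ Pool.Agent.W169.QP.Av X R p) : Positive (R / Real.log X) p := by
  obtain ⟨⟨h1, h2⟩, ⟨h3, h4, -⟩⟩ := h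
  refine ⟨h1, h2, fun a b hab hl => ?_⟩
  exact h4 a b hab (by rw [mul_div_assoc]; exact hl)

/-- **Theorem.** Below `S` is a finite set of primes, `v q = ± 1` for `q ∈ S` and `s = ± 1`, and
`Class S v s X` is the set of the primitive quadratic characters `χ` of conductor at most `X` with
`χ(-1) = s` and `χ(q) = v q` for `q ∈ S`. All constants are absolute.

* If `X ≥ 2^20` and the product of the primes of `S` is at most `X^(1/4)`, the class has at least
  `X / (32 · 3^|S|)` members. If moreover `A |S| + R ≤ (log X) / 2`, `R ≥ 0`, then all but a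
  proportion `C exp (-c R)` of its members have `L(σ,χ) > 0` for all `0 < σ < 1` with
  `|σ - 1/2| ≥ δ` and have positive averages of the completed function over all intervals of length
  at least `2 δ`, where `δ = (A |S| + R) / log X`.
* If `X ≥ X₁` and the product of the primes of `S` is at most `X^(1/4)`, the class has at least
  `X^(1 - B / log log X)` members, and all but a proportion `C X^(-c / log log X)` of them have this
  property with `δ = B / log log X`.
* The set `S` of all primes up to `log X / 6` satisfies the condition. -/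
theorem result :
    (∃ A C c : ℝ, 0 < A ∧ 0 < C ∧ 0 < c ∧ ∀ X : ℕ, 2 ^ 20 ≤ X → ∀ S : Finset ℕ,
      (∀ q ∈ S, q.Prime) → (∏ q ∈ S, q) ^ 4 ≤ X → ∀ v : ℕ → ℤ, (∀ q ∈ S, v q = 1 ∨ v q = -1) →
      ∀ s : ℤ, (s = 1 ∨ s = -1) →
        (Class S v s X).Finite ∧
        (X : ℝ) / (32 * 3 ^ S.card) ≤ ((Class S v s X).ncard : ℝ) ∧
        ∀ R : ℝ, 0 ≤ R → A * S.card + R ≤ Real.log X / 2 →
          ((Class S v s X ∩ {p | ¬ Positive ((A * S.card + R) / Real.log X) p}).ncard : ℝ) ≤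
            C * Real.exp (-(c * R)) * ((Class S v s X).ncard : ℝ)) ∧
    (∃ (B C c : ℝ) (X₁ : ℕ), 0 < B ∧ 0 < C ∧ 0 < c ∧ ∀ X : ℕ, X₁ ≤ X → ∀ S : Finset ℕ,
      (∀ q ∈ S, q.Prime) → (∏ q ∈ S, q) ^ 4 ≤ X → ∀ v : ℕ → ℤ, (∀ q ∈ S, v q = 1 ∨ v q = -1) →
      ∀ s : ℤ, (s = 1 ∨ s = -1) →
        (X : ℝ) ^ (1 - B / Real.log (Real.log X)) ≤ ((Class S v s X).ncard : ℝ) ∧
        ((Class S v s X ∩ {p | ¬ Positive (B / Real.log (Real.log X)) p}).ncard : ℝ) ≤
            C * (X : ℝ) ^ (-(c / Real.log (Real.log X))) * ((Class S v s X).ncard : ℝ)) ∧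
    (∀ X : ℕ, 1 ≤ X →
      (∏ q ∈ (Finset.range (⌊Real.log X / 6⌋₊ + 1)).filter Nat.Prime, q) ^ 4 ≤ X) := by
  have htail := tail_of Pool.Agent.W978.QP.mm Pool.Agent.W973.QP.tg
    Pool.Agent.W108.QP.ker Pool.Agent.W215.QP.fe Pool.Agent.W305.QP.rel
    (Pool.Agent.W101.QP.int_of Pool.Agent.W215.QP.fe) Pool.Agent.W372.QP.cnt_sum
    LnkA.FGF LnkC.CGF
  obtain ⟨A, C, c, hA, hC, hc, h⟩ := main_a LnkC.CGF htail
  have key : ∀ X : ℕ, 2 ^ 20 ≤ X → ∀ S : Finset ℕ,
      (∀ q ∈ S, q.Prime) → (∏ q ∈ S, q) ^ 4 ≤ X → ∀ v : ℕ → ℤ, (∀ q ∈ S, v q = 1 ∨ v q = -1) →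
      ∀ s : ℤ, (s = 1 ∨ s = -1) →
        (Class S v s X).Finite ∧
        (X : ℝ) / (32 * 3 ^ S.card) ≤ ((Class S v s X).ncard : ℝ) ∧
        ∀ R : ℝ, 0 ≤ R → A * S.card + R ≤ Real.log X / 2 →
          ((Class S v s X ∩ {p | ¬ Positive ((A * S.card + R) / Real.log X) p}).ncard : ℝ) ≤
            C * Real.exp (-(c * R)) * ((Class S v s X).ncard : ℝ) := by
    intro X hX S hS hprod v hv s hs
    obtain ⟨h1, h2, h3⟩ := h X hX S hS hprod v hv s hs
    refine ⟨h1, h2, fun R hR hRX => ?_⟩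
    refine le_trans ?_ (h3 R hR hRX)
    have hsub : (Class S v s X ∩ {p | ¬ Positive ((A * S.card + R) / Real.log X) p}) ⊆
        (Cls S v s X ∩ {p | ¬ (Zr X (A * S.card + R) p ∧
          Pool.Agent.W169.QP.Av X (A * S.card + R) p)}) := by
      rintro p ⟨hp1, hp2⟩
      exact ⟨hp1, fun hp3 => hp2 (pos_of hp3)⟩
    exact_mod_cast Set.ncard_le_ncard hsub (h1.subset Set.inter_subset_left)
  refine ⟨⟨A, C, c, hA, hC, hc, key⟩, ?_, all_primes⟩
  obtain ⟨B, X1, hB, hX1, hb⟩ := main_b (K := fun X S v s => Class S v s X)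
    (Q := fun X R p => Positive (R / Real.log X) p) hA hC hc
    (fun X hX S hS hprod v hv s hs => (key X hX S hS hprod v hv s hs).2)
  refine ⟨B, C, c, X1, hB, hC, hc, fun X hX S hS hprod v hv s hs => ?_⟩
  obtain ⟨b1, b2⟩ := hb X hX S hS hprod v hv s hs
  refine ⟨b1, ?_⟩
  have hlog : Real.log X ≠ 0 := by
    have : (2 : ℝ) ≤ (X : ℝ) := by
      have : 2 ≤ X := le_trans (le_trans (by norm_num) hX1) hX
      exact_mod_cast this
    exact (Real.log_pos (by linarith)).ne'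
  have e : B * Real.log X / Real.log (Real.log X) / Real.log X = B / Real.log (Real.log X) := by
    rw [div_right_comm, mul_div_assoc, div_self hlog, mul_one]
  simp only [e] at b2
  exact b2

end Pool.Agent.Results.MP_0016c7_nt.AllSmallPrimesPrescribed
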