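import Mathlib
import Pool.Agent.U985.BG.F

/-!
# The number of real zeros of quadratic L-functions

For every nontrivial quadratic Dirichlet character `χ` modulo `N`, primitive or not, the function
`L(s,χ)` has at most `0.1542 log N + C` zeros in the interval `(0,1)` and at most `0.0771 log N + C`
zeros in `(1/2,1)`, counted with multiplicity, with an absolute constant `C`.  More generally there is
`h > 0` such that for every real `T` the number of the zeros with `0 < Re s < 1` and `|Im s - T| ≤ h`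
is at most `0.1542 log N + C(T)`.  The constant is `c(3/16) + ε`, where `c(κ) = √(2κ(1-2κ)) / π`; a bound
`L(1/2+it,χ) ≪ N^(κ+ε) (1+|t|)^A` for the primitive quadratic characters, `0 ≤ κ ≤ 1/4`, gives
the constant `c(κ) + ε`, and the exponent `3/16` (Burgess) is proved here.

The proof.  1. The bound of Burgess for the real characters of all conductors, with the full exponent
`3/16`: the fourth moment of the short sums (from the theorem of Weil, in the starting library), shifts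
by multiples of primes, and an induction on the length in which the error of the shift is again a short sum
of the same kind.  2. `f(z) = L(1/2+iT+z,χ) exp(z²)`: the even function `f(z) f(-z)` is of size `N^(2κ)` on the
imaginary axis, of size `N^(1/2)` near `Re z = ± 1/2`, with a lower bound of the same order.  3. The inequality
of Jensen in the strip `|Re z| ≤ 1/2 + δ` slit along two half lines of the imaginary axis, with an
optimal length of the slits (starting library, `TH809.MZ`).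
-/

open Complex DirichletCharacter

namespace Pool.Agent.Results.MP_0016c7_nt.FewRealZeros

/-- The zeros of `L(s,χ)` in the set `A`. -/
def Zeros {N : ℕ} [NeZero N] (χ : DirichletCharacter ℂ N) (A : Set ℂ) : Set ℂ :=
  {s : ℂ | s ∈ A ∧ LFunction χ s = 0}

/-- The number of the zeros of `L(s,χ)` in the set `A`, counted with multiplicity. -/
noncomputable def Nz {N : ℕ} [NeZero N] (χ : DirichletCharacter ℂ N) (A : Set ℂ) : ℕ :=
  ∑ᶠ s ∈ Zeros χ A, analyticOrderNatAt (LFunction χ) s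

/-- The part `|Im s - T| ≤ h` of the critical strip. -/
def Box (T h : ℝ) : Set ℂ := {s : ℂ | 0 < s.re ∧ s.re < 1 ∧ |s.im - T| ≤ h}

/-- The real interval `(a,b)`. -/
def Ivl (a b : ℝ) : Set ℂ := {s : ℂ | s.im = 0 ∧ a < s.re ∧ s.re < b}

/-- `L(1/2+it,χ) ≪ q^(κ+ε) (1+|t|)^A`, `A = A(ε)`, for the nontrivial primitive quadratic characters. -/
def Size (κ : ℝ) : Prop := ∀ ε : ℝ, 0 < ε → ∃ C A : ℝ, ∀ (q : ℕ) [NeZero q]
  (χ : DirichletCharacter ℂ q), χ ≠ 1 → χ ^ 2 = 1 → χ.IsPrimitive → ∀ t : ℝ,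
    ‖LFunction χ ⟨1 / 2, t⟩‖ ≤ C * (1 + |t|) ^ A * (q : ℝ) ^ (κ + ε)

/-- the constant `c(κ) = √(2κ(1-2κ)) / π` -/
noncomputable def c (κ : ℝ) : ℝ := Real.sqrt (2 * κ * (1 - 2 * κ)) / Real.pi

theorem one_lt_of_ne {q : ℕ} [NeZero q] {χ : DirichletCharacter ℂ q} (h : χ ≠ 1) : 1 < q := by
  by_contra hc
  have h0 : q ≠ 0 := NeZero.ne q
  have h1 : q = 1 := by omega
  subst h1
  exact h (Subsingleton.elim _ _)

/-- the counting, from the primitive characters to all characters -/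
theorem main {κ ε : ℝ} (h0 : 0 ≤ κ) (h1 : κ ≤ 1 / 4) (hs : U985.BG.SubC U985.BG.Quad κ) (hε : 0 < ε) :
    ∃ h : ℝ, 0 < h ∧ ∀ T : ℝ, ∃ C : ℝ, ∀ (N : ℕ) [NeZero N] (χ : DirichletCharacter ℂ N), χ ≠ 1 →
      χ ^ 2 = 1 → (Zeros χ (Box T h)).Finite ∧ (Nz χ (Box T h) : ℝ) ≤ (c κ + ε) * Real.log N + C := by
  obtain ⟨h, hh, H⟩ := U985.BG.window h0 h1 hs hε
  refine ⟨h, hh, fun T => ?_⟩
  obtain ⟨C, HC⟩ := H T
  refine ⟨C, fun N _ χ hχ hχ2 => ?_⟩
  obtain ⟨f, hf0, θ, hf1, hfN, hθ, hθ2, hord⟩ := U985.BG.to_prim hχ hχ2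
  have hset : Zeros χ (Box T h) = U985.BG.ZS θ T h := by
    ext s
    unfold Zeros Box U985.BG.ZS
    simp only [Set.mem_ofPred_eq]
    constructor
    · rintro ⟨⟨a1, a2, a3⟩, a4⟩
      exact ⟨((hord s a1).1).1 a4, a1, a2, a3⟩
    · rintro ⟨a4, a1, a2, a3⟩
      exact ⟨⟨a1, a2, a3⟩, ((hord s a1).1).2 a4⟩
  obtain ⟨g1, g2⟩ := HC f θ hf1 hθ hθ2
  refine ⟨by rw [hset]; exact g1, ?_⟩
  have hN : Nz χ (Box T h) = ∑ᶠ s ∈ U985.BG.ZS θ T h, analyticOrderNatAt (LFunction θ) s := by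
    unfold Nz
    rw [hset]
    apply finsum_mem_congr rfl
    intro s hs
    unfold analyticOrderNatAt
    rw [(hord s hs.2.1).2]
  rw [hN]
  refine g2.trans ?_
  have hlog : Real.log f ≤ Real.log N := by
    apply Real.log_le_log
    · exact_mod_cast (by omega : 0 < f)
    · exact_mod_cast hfN
  have hc : 0 ≤ TH809.MZ.cc κ + ε := by
    have : 0 ≤ TH809.MZ.cc κ := by unfold TH809.MZ.cc; positivity
    linarith
  have := mul_le_mul_of_nonneg_left hlog hc
  have e : TH809.MZ.cc κ = c κ := rfl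
  rw [e] at this ⊢
  linarith

/-- real zeros -/
theorem real_part {N : ℕ} [NeZero N] {χ : DirichletCharacter ℂ N} (hχ : χ ≠ 1) (hχ2 : χ ^ 2 = 1)
    {h : ℝ} (hh : 0 < h) (hfin : (Zeros χ (Box 0 h)).Finite) :
    Nz χ (Ivl 0 1) ≤ Nz χ (Box 0 h) ∧ 2 * Nz χ (Ivl (1 / 2) 1) ≤ Nz χ (Box 0 h) := by
  classical
  obtain ⟨f, hf0, θ, hf1, hfN, hθ, hθ2, hord⟩ := U985.BG.to_prim hχ hχ2
  have hsub : ∀ a b : ℝ, 0 ≤ a → b ≤ 1 → Zeros χ (Ivl a b) ⊆ Zeros χ (Box 0 h) := by
    rintro a b ha hb s ⟨⟨h1, h2, h3⟩, h4⟩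
    refine ⟨⟨by linarith, by linarith, ?_⟩, h4⟩
    rw [h1, sub_zero, abs_zero]
    exact hh.le
  have f1 := hfin.subset (hsub 0 1 le_rfl le_rfl)
  have f2 := hfin.subset (hsub (1 / 2) 1 (by norm_num) le_rfl)
  unfold Nz
  rw [finsum_mem_eq_finite_toFinset_sum _ hfin, finsum_mem_eq_finite_toFinset_sum _ f1,
    finsum_mem_eq_finite_toFinset_sum _ f2]
  constructor
  · apply Finset.sum_le_sum_of_subset
    exact (Set.Finite.toFinset_subset_toFinset).2 (hsub 0 1 le_rfl le_rfl)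
  · have hsymm : ∀ s ∈ f2.toFinset, analyticOrderAt (LFunction χ) (1 - s) =
        analyticOrderAt (LFunction χ) s ∧ LFunction χ (1 - s) = 0 := by
      intro s hs
      obtain ⟨⟨h1, h2, h3⟩, h4⟩ := f2.mem_toFinset.1 hs
      have k1 : 0 < s.re := by linarith
      have k2 : 0 < (1 - s).re := by rw [sub_re, one_re]; linarith
      have k3 : analyticOrderAt (LFunction χ) (1 - s) = analyticOrderAt (LFunction χ) s := by
        rw [(hord _ k2).2, (hord _ k1).2]
        exact U985.BG.order_symm hf1 hθ hθ2 k1 h3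
      refine ⟨k3, ?_⟩
      have d := differentiable_LFunction hχ
      have k4 : analyticOrderAt (LFunction χ) s ≠ 0 := (d.analyticAt s).analyticOrderAt_ne_zero.2 h4
      rw [← k3] at k4
      exact (d.analyticAt _).analyticOrderAt_ne_zero.1 k4
    have hinj : Function.Injective fun s : ℂ => 1 - s := by
      intro a b hab
      have : 1 - a = 1 - b := hab
      linear_combination -this
    have himg : ∑ s ∈ f2.toFinset.image (fun s => 1 - s), analyticOrderNatAt (LFunction χ) s =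
        ∑ s ∈ f2.toFinset, analyticOrderNatAt (LFunction χ) s := by
      rw [Finset.sum_image (fun x _ y _ hxy => hinj hxy)]
      apply Finset.sum_congr rfl
      intro s hs
      unfold analyticOrderNatAt
      rw [(hsymm s hs).1]
    have hdisj : Disjoint f2.toFinset (f2.toFinset.image (fun s => 1 - s)) := by
      rw [Finset.disjoint_left]
      intro s hs hs'
      obtain ⟨u, hu, rfl⟩ := Finset.mem_image.1 hs'
      have a1 := (f2.mem_toFinset.1 hs).1.2.1
      have a2 := (f2.mem_toFinset.1 hu).1.2.1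
      rw [sub_re, one_re] at a1
      linarith
    calc 2 * ∑ s ∈ f2.toFinset, analyticOrderNatAt (LFunction χ) s
        = ∑ s ∈ f2.toFinset, analyticOrderNatAt (LFunction χ) s +
          ∑ s ∈ f2.toFinset.image (fun s => 1 - s), analyticOrderNatAt (LFunction χ) s := by
          rw [himg, two_mul]
      _ = ∑ s ∈ f2.toFinset ∪ f2.toFinset.image (fun s => 1 - s),
          analyticOrderNatAt (LFunction χ) s := (Finset.sum_union hdisj).symm
      _ ≤ ∑ s ∈ hfin.toFinset, analyticOrderNatAt (LFunction χ) s := by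
          apply Finset.sum_le_sum_of_subset
          intro s hs
          rw [hfin.mem_toFinset]
          rcases Finset.mem_union.1 hs with hs | hs
          · exact hsub (1 / 2) 1 (by norm_num) le_rfl (f2.mem_toFinset.1 hs)
          · obtain ⟨u, hu, rfl⟩ := Finset.mem_image.1 hs
            obtain ⟨⟨h1, h2, h3⟩, h4⟩ := f2.mem_toFinset.1 hu
            refine ⟨⟨?_, ?_, ?_⟩, (hsymm u hu).2⟩
            · rw [sub_re, one_re]; linarith
            · rw [sub_re, one_re]; linarith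
            · rw [sub_im, one_im, h1]
              simp
              exact hh.le

theorem c_val : c (3 / 16) ≤ 15411 / 100000 := by
  unfold c
  rw [div_le_iff₀ Real.pi_pos]
  have h6 : Real.sqrt (2 * (3 / 16) * (1 - 2 * (3 / 16))) ≤ 484124 / 1000000 := by
    apply Real.sqrt_le_iff.2
    constructor <;> norm_num
  have h7 := Real.pi_gt_d6
  linarith

/-- **Theorem.**
(1) `L(1/2+it,χ) ≪ q^(κ+ε) (1+|t|)^A` holds for the nontrivial primitive quadratic characters with
`κ = 3/16`.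
(2) If it holds with some `0 ≤ κ ≤ 1/4`, then for every `ε > 0` there is `h > 0` such that for every
real `T` there is a constant `C` such that for every nontrivial quadratic character `χ` modulo `N`
(primitive or not) the number of the zeros of `L(s,χ)` with `0 < Re s < 1`, `|Im s - T| ≤ h`, counted with
multiplicity, is at most `(c(κ) + ε) log N + C`.
(3) There are `h > 0` and for every real `T` a constant `C` such that this number is at most
`0.1542 log N + C`, for all `N` and all these `χ`.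
(4) There is a constant `C` such that for all `N` and all these `χ`, `L(s,χ)` has at most
`0.1542 log N + C` zeros in `(0,1)` and at most `0.0771 log N + C` zeros in `(1/2,1)`, counted with
multiplicity.
(5) For all large `N`, (4) holds with `C = 0`. -/
theorem result :
    Size (3 / 16) ∧
    (∀ κ : ℝ, 0 ≤ κ → κ ≤ 1 / 4 → Size κ → ∀ ε : ℝ, 0 < ε → ∃ h : ℝ, 0 < h ∧ ∀ T : ℝ, ∃ C : ℝ,
      ∀ (N : ℕ) [NeZero N] (χ : DirichletCharacter ℂ N), χ ≠ 1 → χ ^ 2 = 1 →
        (Zeros χ (Box T h)).Finite ∧ (Nz χ (Box T h) : ℝ) ≤ (c κ + ε) * Real.log N + C) ∧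
    (∃ h : ℝ, 0 < h ∧ ∀ T : ℝ, ∃ C : ℝ,
      ∀ (N : ℕ) [NeZero N] (χ : DirichletCharacter ℂ N), χ ≠ 1 → χ ^ 2 = 1 →
        (Zeros χ (Box T h)).Finite ∧ (Nz χ (Box T h) : ℝ) ≤ 1542 / 10000 * Real.log N + C) ∧
    (∃ C : ℝ, ∀ (N : ℕ) [NeZero N] (χ : DirichletCharacter ℂ N), χ ≠ 1 → χ ^ 2 = 1 →
        (Zeros χ (Ivl 0 1)).Finite ∧ (Nz χ (Ivl 0 1) : ℝ) ≤ 1542 / 10000 * Real.log N + C ∧
          (Nz χ (Ivl (1 / 2) 1) : ℝ) ≤ 771 / 10000 * Real.log N + C) ∧
    (∃ N₀ : ℕ, ∀ (N : ℕ) [NeZero N] (χ : DirichletCharacter ℂ N), N₀ ≤ N → χ ≠ 1 → χ ^ 2 = 1 →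
        (Nz χ (Ivl 0 1) : ℝ) ≤ 1542 / 10000 * Real.log N ∧
          (Nz χ (Ivl (1 / 2) 1) : ℝ) ≤ 771 / 10000 * Real.log N) := by
  have hconv : ∀ κ : ℝ, Size κ → U985.BG.SubC U985.BG.Quad κ := by
    intro κ hs ε hε
    obtain ⟨C, A, H⟩ := hs ε hε
    refine ⟨C, A, fun q _ χ hq hχ hQ t => ?_⟩
    exact H q χ (H855R2.SF.ne_one_of_prim hq hχ) hQ hχ t
  have hB : Size (3 / 16) := by
    intro ε hε
    obtain ⟨C, A, H⟩ := U985.BG.sub_quad ε hε
    exact ⟨C, A, fun q _ χ h1 h2 h3 t => H q χ (one_lt_of_ne h1) h3 h2 t⟩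
  -- real zeros with a constant
  have hreal : ∀ e : ℝ, 0 < e → ∃ C : ℝ, ∀ (N : ℕ) [NeZero N] (χ : DirichletCharacter ℂ N), χ ≠ 1 →
      χ ^ 2 = 1 → (Zeros χ (Ivl 0 1)).Finite ∧
        (Nz χ (Ivl 0 1) : ℝ) ≤ (15411 / 100000 + e) * Real.log N + C ∧
          (2 * Nz χ (Ivl (1 / 2) 1) : ℝ) ≤ (15411 / 100000 + e) * Real.log N + C := by
    intro e he
    obtain ⟨h, hh, H⟩ := main (κ := 3 / 16) (by norm_num) (by norm_num) U985.BG.sub_quad he
    obtain ⟨C, HC⟩ := H 0
    refine ⟨C, fun N _ χ h1 h2 => ?_⟩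
    obtain ⟨g1, g2⟩ := HC N χ h1 h2
    obtain ⟨g3, g4⟩ := real_part h1 h2 hh g1
    have hlog : 0 ≤ Real.log N := Real.log_natCast_nonneg N
    have g5 : (c (3 / 16) + e) * Real.log N ≤ (15411 / 100000 + e) * Real.log N := by
      apply mul_le_mul_of_nonneg_right _ hlog
      linarith [c_val]
    have g3' : (Nz χ (Ivl 0 1) : ℝ) ≤ Nz χ (Box 0 h) := by exact_mod_cast g3
    have g4' : (2 * Nz χ (Ivl (1 / 2) 1) : ℝ) ≤ Nz χ (Box 0 h) := by exact_mod_cast g4
    refine ⟨g1.subset ?_, by linarith, by linarith⟩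
    rintro s ⟨⟨k1, k2, k3⟩, k4⟩
    refine ⟨⟨by linarith, by linarith, ?_⟩, k4⟩
    rw [k1, sub_zero, abs_zero]
    exact hh.le
  refine ⟨hB, fun κ h0 h1 hs ε hε => main h0 h1 (hconv κ hs) hε, ?_, ?_, ?_⟩
  · obtain ⟨h, hh, H⟩ := main (κ := 3 / 16) (by norm_num) (by norm_num) U985.BG.sub_quad
      (by norm_num : (0:ℝ) < 9 / 100000)
    refine ⟨h, hh, fun T => ?_⟩
    obtain ⟨C, HC⟩ := H T
    refine ⟨C, fun N _ χ h1 h2 => ?_⟩
    obtain ⟨g1, g2⟩ := HC N χ h1 h2
    refine ⟨g1, g2.trans ?_⟩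
    have hlog : 0 ≤ Real.log N := Real.log_natCast_nonneg N
    have : (c (3 / 16) + 9 / 100000) * Real.log N ≤ 1542 / 10000 * Real.log N := by
      apply mul_le_mul_of_nonneg_right _ hlog
      linarith [c_val]
    linarith
  · obtain ⟨C, HC⟩ := hreal (9 / 100000) (by norm_num)
    refine ⟨|C|, fun N _ χ h1 h2 => ?_⟩
    obtain ⟨g1, g2, g3⟩ := HC N χ h1 h2
    have hC := le_abs_self C
    have hC0 := abs_nonneg C
    refine ⟨g1, by linarith, by linarith⟩
  · obtain ⟨C, HC⟩ := hreal (4 / 100000) (by norm_num)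
    obtain ⟨N₀, hN₀⟩ := exists_nat_ge (Real.exp (|C| * 100000))
    refine ⟨N₀, fun N _ χ hN h1 h2 => ?_⟩
    obtain ⟨g1, g2, g3⟩ := HC N χ h1 h2
    have hC := le_abs_self C
    have hlog : |C| * 100000 ≤ Real.log N := by
      have hN' : Real.exp (|C| * 100000) ≤ N := hN₀.trans (by exact_mod_cast hN)
      have hpos : (0 : ℝ) < N := lt_of_lt_of_le (Real.exp_pos _) hN'
      rw [Real.le_log_iff_exp_le hpos]
      exact hN'
    constructor <;> linarith

end Pool.Agent.Results.MP_0016c7_nt.FewRealZeros
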