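import Pool.Agent.U4.BM.Inst
import Pool.Agent.Results.MP_0016c7_nt.LogMeanZeros
import Pool.Agent.Results.MP_0016c7_nt.MostQuadraticCharacters

/-!
# No fixed averaging method detects the positivity of quadratic L-functions

Let `χ` be a real primitive character and `A(y) = ∑_{n ≤ y} χ(n)`.  If some average
`S(x) = ∫ A(xt) dμ(t)` with a positive measure `μ` is nonnegative for all `x > 0`, then `L(s,χ) > 0` on
`(0,1)`; this is how one verifies positivity in examples (partial sums, logarithmic means of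
Chowla, Fekete polynomials, theta functions).  Conversely (starting result `LogMeanZeros`) positivity of `L`
on `(0,1)` always shows up in the logarithmic means of sufficiently large order.

We show that no fixed method works except for a proportion zero of the characters: for every kernel, positive or
not, with a nonzero moment of order `1/2`, the averages have arbitrarily many sign changes for almost
all `χ`, and the exceptional characters are the same for all kernels whose moments of order `s` stay within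
ten percent of the moment of order `1/2` for `1/2 ≤ s ≤ 1/2 + δ`.  For the Fekete polynomials and the
Chowla means of a given order this is in substance a theorem of Baker and Montgomery (1990).
-/

set_option autoImplicit false

namespace Pool.Agent.Results.MP_0016c7_nt.FixedKernels

open MeasureTheory Set

/-- The nonprincipal real primitive characters, as pairs (conductor, character). -/
def RealPrimitive : Set (Σ N : ℕ, DirichletCharacter ℂ N) :=
  {p | p.1 ≠ 0 ∧ p.2.IsPrimitive ∧ p.2 ^ 2 = 1 ∧ p.2 ≠ 1}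

/-- The value `χ(n) ∈ {0, 1, -1}`. -/
noncomputable def val (p : Σ N : ℕ, DirichletCharacter ℂ N) (n : ℕ) : ℝ := (p.2 (n : ZMod p.1)).re

/-- `A(y) = ∑_{1 ≤ n ≤ y} χ(n)`. -/
noncomputable def A (p : Σ N : ℕ, DirichletCharacter ℂ N) (y : ℝ) : ℝ :=
  ∑ n ∈ Finset.Icc 1 ⌊y⌋₊, val p n

/-- The average `∫ A(xt) dμ(t) - ∫ A(xt) dν(t)`. -/
noncomputable def average (p : Σ N : ℕ, DirichletCharacter ℂ N) (μ ν : Measure ℝ) (x : ℝ) : ℝ :=
  (∫ t, A p (x * t) ∂μ) - ∫ t, A p (x * t) ∂ν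

/-- The moment `∫ t^s dμ(t) - ∫ t^s dν(t)`. -/
noncomputable def moment (μ ν : Measure ℝ) (s : ℝ) : ℝ := (∫ t, t ^ s ∂μ) - ∫ t, t ^ s ∂ν

/-- The logarithmic mean `R_k(x) = ∑_{1 ≤ n ≤ x} χ(n) (log (x/n))^k` of order `k` (Chowla). -/
noncomputable def R (p : Σ N : ℕ, DirichletCharacter ℂ N) (k : ℕ) (x : ℝ) : ℝ :=
  ∑ n ∈ Finset.Icc 1 ⌊x⌋₊, val p n * (Real.log (x / n)) ^ k

/-- `μ` lives on `(0,∞)` and its moments of all orders `s ∈ [1/2, b]` are finite. -/
structure OnHalfLine (μ : Measure ℝ) (b : ℝ) : Prop where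
  /-- `μ` is a countable sum of finite measures -/
  sfinite : SFinite μ
  /-- no mass outside `(0,∞)` -/
  pos : μ (Iic 0) = 0
  /-- finite moments -/
  mom : ∀ s ∈ Icc (1 / 2 : ℝ) b, Integrable (fun t : ℝ => t ^ s) μ

/-- The class of signed kernels `μ - ν` with a nonzero moment of order `1/2`, whose moments of order
`s` are within ten percent of it for `1/2 ≤ s ≤ 1/2 + δ`. -/
structure Stable (δ : ℝ) (μ ν : Measure ℝ) : Prop where
  left : OnHalfLine μ (1 / 2 + δ)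
  right : OnHalfLine ν (1 / 2 + δ)
  ne : moment μ ν (1 / 2) ≠ 0
  near : ∀ s ∈ Icc (1 / 2 : ℝ) (1 / 2 + δ),
    |moment μ ν s - moment μ ν (1 / 2)| ≤ |moment μ ν (1 / 2)| / 10

/-- `g` has at least `M` sign changes on `(0,∞)`. -/
def SignChanges (M : ℕ) (g : ℝ → ℝ) : Prop :=
  ∃ x : ℕ → ℝ, (∀ i, 0 < x i) ∧ (∀ i < M, x i < x (i + 1)) ∧ ∀ i < M, g (x i) * g (x (i + 1)) < 0

/-- The property holds for at least the proportion `c` of the real primitive characters of conductor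
at most `X`, for all large `X`. -/
def AtLeast (c : ℝ) (P : (Σ N : ℕ, DirichletCharacter ℂ N) → Prop) : Prop :=
  ∃ X₀ : ℕ, ∀ X : ℕ, X₀ ≤ X → (RealPrimitive ∩ {p | p.1 ≤ X}).Finite ∧
    c * ((RealPrimitive ∩ {p | p.1 ≤ X}).ncard : ℝ) ≤
      ((RealPrimitive ∩ {p | p.1 ≤ X} ∩ {p | P p}).ncard : ℝ)

/-- The property holds for almost all real primitive characters. -/
def AlmostAll (P : (Σ N : ℕ, DirichletCharacter ℂ N) → Prop) : Prop :=
  ∀ ε : ℝ, 0 < ε → AtLeast (1 - ε) P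

/-- `L(s,χ)` is real and positive for `0 < s < 1`. -/
def Positive (p : Σ N : ℕ, DirichletCharacter ℂ N) : Prop :=
  ∃ _ : NeZero p.1, ∀ s : ℝ, 0 < s → s < 1 →
    (DirichletCharacter.LFunction p.2 (s : ℂ)).im = 0 ∧
    0 < (DirichletCharacter.LFunction p.2 (s : ℂ)).re

open Pool.Agent.U4.BM in
lemma kerC_of {δ : ℝ} {μ ν : Measure ℝ} (h : Stable δ μ ν) : KerC δ μ ν :=
  ⟨h.left.sfinite, h.right.sfinite, fun s hs => ⟨h.left.pos, h.left.mom s hs⟩,
    fun s hs => ⟨h.right.pos, h.right.mom s hs⟩, h.ne, h.near⟩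

open Pool.Agent.U4.BM in
lemma sgC_congr {M : ℕ} {g g' : ℝ → ℝ} (h : SgC M g) (hg : ∀ x : ℝ, 0 < x → g x = g' x) :
    SignChanges M g' := by
  obtain ⟨x, h1, h2, h3⟩ := h
  refine ⟨x, h1, h2, fun i hi => ?_⟩
  rw [← hg _ (h1 i), ← hg _ (h1 (i + 1))]
  exact h3 i hi

lemma AlmostAll.mono {P Q : (Σ N : ℕ, DirichletCharacter ℂ N) → Prop} (h : AlmostAll P)
    (hPQ : ∀ p ∈ RealPrimitive, P p → Q p) : AlmostAll Q := by
  intro ε hε
  obtain ⟨X₀, hX⟩ := h ε hε
  refine ⟨X₀, fun X hX0 => ⟨(hX X hX0).1, (hX X hX0).2.trans ?_⟩⟩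
  have hsub : RealPrimitive ∩ {p | p.1 ≤ X} ∩ {p | P p} ⊆
      RealPrimitive ∩ {p | p.1 ≤ X} ∩ {p | Q p} := fun p hp => ⟨hp.1, hPQ p hp.1.1 hp.2⟩
  exact_mod_cast Set.ncard_le_ncard hsub ((hX X hX0).1.subset Set.inter_subset_left)

open Pool.Agent.U4.BM in
lemma part3 (δ : ℝ) (M : ℕ) (hδ : 0 < δ) : AlmostAll fun p =>
    ∀ μ ν : Measure ℝ, KerC δ μ ν → SgC M (avg p μ ν) := by
  intro ε hε
  obtain ⟨N, hN⟩ := uniform δ hδ M ε hε
  exact ⟨N, fun X hX => hN X hX⟩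

open Pool.Agent.U4.BM in
lemma part4 (K M : ℕ) : AlmostAll fun p => ∀ k ≤ K, SignChanges M (R p k) := by
  obtain ⟨δ, hδ, h0, hk⟩ := ml_ker K
  refine (part3 δ M hδ).mono fun p hp h k hkK => ?_
  rcases Nat.eq_zero_or_eq_succ_pred k with h1 | h1
  · rw [h1]
    exact sgC_congr (h _ _ h0) fun x _ => (Rk_zero p x).symm
  · rw [h1]
    exact sgC_congr (h _ _ (hk _ (by omega))) fun x hx => (Rk_succ p hp.1 _ hx).symm

open Pool.Agent.U4.BM in
lemma part5 (a₁ : ℝ) (M : ℕ) (ha₁ : 0 < a₁) : AlmostAll fun p => ∀ a : ℝ, a₁ ≤ a →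
    SignChanges M fun x => ∑' n : ℕ, val p (n + 1) * Real.exp (-((((n : ℝ) + 1) / x) ^ a)) := by
  obtain ⟨δ, hδ, hk⟩ := me_ker ha₁
  refine (part3 δ M hδ).mono fun p hp h a ha => ?_
  refine sgC_congr (h _ _ (hk a ha)) fun x hx => ?_
  exact (Exp_avg p hp.1 (lt_of_lt_of_le ha₁ ha) hx).tsum_eq.symm

open Pool.Agent.H306R2.RZ Pool.Agent.H306R2.RG in
lemma positive_most : AtLeast (8645 / 10000) Positive := by
  have hAdm : ∃ δ θ : ℝ, 0 < δ ∧ δ < 1 / 8 ∧ (499 / 1000 : ℝ) < θ ∧ Adm2 (1 / 2 + 3 * δ) θ := by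
    refine ⟨1 / 100000, 4995 / 10000, by norm_num, by norm_num, by norm_num, ?_⟩
    constructor <;> norm_num
  obtain ⟨N, hN⟩ := LnkC.FIN LnkC.CGF (8645 / 10000) (by norm_num) (fun φ hφ => by
    obtain ⟨N, hN⟩ := LnkB.FI4G φ (LnkA.FGF φ hφ) (LnkC.CGF φ hφ) (LnkC.DEN φ hφ)
      (499 / 1000) (27 / 200) (by norm_num) hAdm
      (Pool.Agent.H423R2.RGL.OldN.NUM (499 / 1000) (27 / 200) (Or.inr (Or.inr ⟨rfl, rfl⟩)))
      (1355 / 10000) (by norm_num)
    refine ⟨N, fun X hX => ?_⟩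
    have h := hN X hX
    have e : (1 - 1355 / 10000 : ℝ) = 8645 / 10000 := by norm_num
    rwa [e] at h)
  exact ⟨N, fun X hX => hN X hX⟩

lemma part6 (K M : ℕ) : AtLeast (864 / 1000) fun p => Positive p ∧
      (∃ k₀ : ℕ, ∀ k ≥ k₀, ∀ x : ℝ, 1 < x → 0 < R p k x) ∧ ∀ k ≤ K, SignChanges M (R p k) := by
  obtain ⟨N1, h1⟩ := positive_most
  obtain ⟨N2, h2⟩ := part4 K M (5 / 10000) (by norm_num)
  refine ⟨max N1 N2, fun X hX => ?_⟩
  obtain ⟨hfin, g1⟩ := h1 X ((le_max_left _ _).trans hX)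
  obtain ⟨-, g2⟩ := h2 X ((le_max_right _ _).trans hX)
  refine ⟨hfin, ?_⟩
  have g3 := Pool.Agent.N310.UV.ncard_two hfin {p | Positive p} {p | ∀ k ≤ K, SignChanges M (R p k)}
    (x := 1355 / 10000) (y := 5 / 10000) (by
      have e : (1 - 1355 / 10000 : ℝ) = 8645 / 10000 := by norm_num
      rw [e]; exact g1) g2
  have e : (1 - (1355 / 10000 + 5 / 10000) : ℝ) = 864 / 1000 := by norm_num
  rw [e] at g3
  refine g3.trans ?_
  have hsub : RealPrimitive ∩ {p | p.1 ≤ X} ∩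
      ({p | Positive p} ∩ {p | ∀ k ≤ K, SignChanges M (R p k)}) ⊆
      RealPrimitive ∩ {p | p.1 ≤ X} ∩ {p | Positive p ∧
      (∃ k₀ : ℕ, ∀ k ≥ k₀, ∀ x : ℝ, 1 < x → 0 < R p k x) ∧ ∀ k ≤ K, SignChanges M (R p k)} := by
    rintro p ⟨hp, hp1, hp2⟩
    refine ⟨hp, hp1, ?_, hp2⟩
    obtain ⟨hN, hpos⟩ := hp1
    have h3 := (Pool.Agent.Results.MP_0016c7_nt.LogMeanZeros.result p.2 hp.1.2.2.2 hp.1.2.2.1).1
    have h4 := (h3.out 0 2).1 fun s hs0 hs1 => (hpos s hs0 hs1).2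
    obtain ⟨k₀, hk₀⟩ := h4
    exact ⟨k₀, fun k hk x hx => hk₀ k hk x hx⟩
  exact_mod_cast Set.ncard_le_ncard hsub (hfin.subset Set.inter_subset_left)

/-- **Theorem.**
1. Every signed kernel `μ - ν` with finite moments of orders `1/2` and `b > 1/2` and nonzero moment of
order `1/2` belongs to the class `Stable δ` for some `δ > 0`.
2. For the kernels of these classes all averages converge absolutely.
3. For all `δ > 0` and `M`, almost all real primitive characters `χ` are such that for **every** kernel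
in the class `Stable δ` the averaged character sum has at least `M` sign changes on `(0,∞)`.
4. For all `K` and `M`, for almost all `χ` all the logarithmic means of order `k ≤ K` have at least `M`
sign changes.
5. For all `a₁ > 0` and `M`, for almost all `χ` all the sums `∑ χ(n) exp(-(n/x)^a)`, `a ≥ a₁`, have at
least `M` sign changes (`a = 1`: Fekete series, `a = 2`: theta series).
6. For all `K` and `M`, at least 86.4 percent of the real primitive characters satisfy `L(s,χ) > 0` on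
`(0,1)` and `R_k > 0` on `(1,∞)` for all large `k`, whereas `R_k` has at least `M` sign changes for all
`k ≤ K`. -/
theorem result :
    (∀ (μ ν : Measure ℝ) (b : ℝ), 1 / 2 < b → SFinite μ → SFinite ν → μ (Iic 0) = 0 →
      ν (Iic 0) = 0 → Integrable (fun t : ℝ => t ^ (1 / 2 : ℝ)) μ → Integrable (fun t : ℝ => t ^ b) μ →
      Integrable (fun t : ℝ => t ^ (1 / 2 : ℝ)) ν → Integrable (fun t : ℝ => t ^ b) ν →
      moment μ ν (1 / 2) ≠ 0 → ∃ δ : ℝ, 0 < δ ∧ Stable δ μ ν) ∧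
    (∀ (δ : ℝ) (μ ν : Measure ℝ), 0 < δ → Stable δ μ ν → ∀ p ∈ RealPrimitive, ∀ x : ℝ, 0 < x →
      Integrable (fun t => A p (x * t)) μ ∧ Integrable (fun t => A p (x * t)) ν) ∧
    (∀ (δ : ℝ) (M : ℕ), 0 < δ → AlmostAll fun p =>
      ∀ μ ν : Measure ℝ, Stable δ μ ν → SignChanges M (average p μ ν)) ∧
    (∀ K M : ℕ, AlmostAll fun p => ∀ k ≤ K, SignChanges M (R p k)) ∧
    (∀ (a₁ : ℝ) (M : ℕ), 0 < a₁ → AlmostAll fun p => ∀ a : ℝ, a₁ ≤ a →
      SignChanges M fun x => ∑' n : ℕ, val p (n + 1) * Real.exp (-((((n : ℝ) + 1) / x) ^ a))) ∧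
    (∀ K M : ℕ, AtLeast (864 / 1000) fun p => Positive p ∧
      (∃ k₀ : ℕ, ∀ k ≥ k₀, ∀ x : ℝ, 1 < x → 0 < R p k x) ∧ ∀ k ≤ K, SignChanges M (R p k)) := by
  refine ⟨?_, ?_, ?_, part4, part5, part6⟩
  · intro μ ν b hb hμ hν hμ0 hν0 h1 h2 h3 h4 hne
    obtain ⟨δ, hδ, hK⟩ := Pool.Agent.U4.BM.stable hb hμ0 h1 h2 hν0 h3 h4 hne
    exact ⟨δ, hδ, ⟨hμ, hμ0, fun s hs => (hK.m1 s hs).int⟩, ⟨hν, hν0, fun s hs => (hK.m2 s hs).int⟩,
      hne, hK.near⟩
  · intro δ μ ν hδ hK p hp x hx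
    have hB := Pool.Agent.U4.BM.csum_bd hp.1 hp.2.2.2
    have hs : (1 / 2 : ℝ) ∈ Icc (1 / 2 : ℝ) (1 / 2 + δ) := ⟨le_rfl, by linarith⟩
    have hC := kerC_of hK
    exact ⟨Pool.Agent.U4.BM.avg_conv hB μ (by norm_num) (hC.m1 _ hs) hx,
      Pool.Agent.U4.BM.avg_conv hB ν (by norm_num) (hC.m2 _ hs) hx⟩
  · intro δ M hδ
    exact (part3 δ M hδ).mono fun p _ h μ ν hK => h μ ν (kerC_of hK)

end Pool.Agent.Results.MP_0016c7_nt.FixedKernels
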