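import Pool.Agent.U745.RZ.Fin

/-!
# Real zeros of quadratic `L(s,χ)` and the sum of `χ(p) / √p` over the primes

Let `χ` be a nontrivial quadratic character modulo `N`, and let

`S_χ(X) = ∑_p χ(p) / (√p Γ(1 + log p / log X))`,

an absolutely convergent series over the primes: the sum of `χ(p) / √p` over `p ≤ X` with a smooth
cut-off (for the sharp cut-off no inequality in the direction of `L(s,χ) > 0` is known without the
Riemann hypothesis).  Without any hypothesis:

* `S_χ(X) ≤ -(1/2) log log X + O(1)`: the smoothed sum is biased towards the primes with `χ(p) = -1`,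
  and real zeros make the bias stronger;
* if `L(s,χ)` has no zero in `(1/2,1)`, and a zero of order `r ≥ 0` at `1/2` with leading coefficient `ℓ`,
  then `S_χ(X) = -(r + 1/2) log log X + log |ℓ| + r κ + c_χ + O(1 / log X)`, with explicit constants
  `κ` and `c_χ`;
* if `β` is the largest zero in `(1/2,1)`, then `S_χ(X) ≤ - exp (X^e)` for all `e < β - 1/2` and all
  large `X`;
* consequently `L(s,χ) > 0` for all `0 < s < 1` if and only if there are `c < 3/2` and a sequence
  `X → ∞` with `S_χ(X) ≥ - c log log X`, and then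
  `S_χ(X) = -(1/2) log log X + log L(1/2,χ) + c_χ + O(1 / log X)`.

Proof.  Hankel's formula for `1 / Γ` writes the sums as integrals of `exp (exp z)` times a branch of
`log L(1/2 + z / log X, χ)` over the boundary of a half strip of width `2π`, the vertical side is
shifted to `Re z = 1`, and the real zeros are seen since the strip has width `2π / log X` only.  The
squares of the primes are treated by the same formula for the trivial character at the point `1`.
The central theorems on these integrals are in the library; the case of real characters, the form with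
primes only, the bias and the constants are new.
-/

set_option autoImplicit false

namespace Pool.Agent.Results.MP_0016c7_nt.PrimeSumCriterion

open Filter Topology

/-- `S_χ(X) = ∑_p χ(p) / (√p Γ(1 + log p / log X))` -/
noncomputable def primeSum {N : ℕ} (χ : DirichletCharacter ℂ N) (X : ℝ) : ℝ :=
  ∑' p : Nat.Primes, (χ p).re / (√p * Real.Gamma (1 + Real.log p / Real.log X))

/-- `κ = ∫_0^∞ (e^{-t} - 1 / Γ(1 + t)) dt / t` -/
noncomputable def kappa : ℝ :=
  ∫ t in Set.Ioi (0 : ℝ), (Real.exp (-t) - (Real.Gamma (1 + t))⁻¹) / t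

/-- `c_χ = (κ + log 2 - log ∏_{p ∣ N} (1 - 1/p)) / 2 - ∑_p (artanh (x_p) - x_p)`, `x_p = χ(p) / √p` -/
noncomputable def const {N : ℕ} (χ : DirichletCharacter ℂ N) : ℝ :=
  (kappa + Real.log 2 - Real.log (∏ p ∈ N.primeFactors, (1 - (p : ℝ)⁻¹))) / 2 -
    ∑' p : Nat.Primes, (1 / 2 * Real.log ((1 + (χ p).re / √p) / (1 - (χ p).re / √p)) -
      (χ p).re / √p)

/-- **Theorem.** Let `χ` be a nontrivial quadratic character modulo `N`.

* The series for `S_χ(X)`, `X > 1`, converges absolutely, and `S_χ(X) ≤ -(1/2) log log X + C` for all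
  large `X`.
* The following are equivalent: `L(s,χ)` is real and positive for all `0 < s < 1`;
  `S_χ(X) = -(1/2) log log X + log L(1/2,χ) + c_χ + O(1 / log X)`; there are `c < 3/2` and a
  sequence `X → ∞` with `S_χ(X) ≥ - c log log X`.
* If there are no zeros in `(1/2,1)` and `L(s,χ) / (s - 1/2)^r → ℓ ≠ 0` for `s → 1/2`, then
  `S_χ(X) = -(r + 1/2) log log X + log |ℓ| + r κ + c_χ + O(1 / log X)`.
* If `β` is the largest zero in `(1/2,1)` and `e < β - 1/2`, then `S_χ(X) ≤ - exp (X^e)` for all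
  large `X`. -/
theorem result {N : ℕ} [NeZero N] (χ : DirichletCharacter ℂ N) (h1 : χ ≠ 1) (h2 : χ ^ 2 = 1) :
    ((∀ X : ℝ, 1 < X → Summable fun p : Nat.Primes =>
        |(χ p).re / (√p * Real.Gamma (1 + Real.log p / Real.log X))|) ∧
      ∃ C : ℝ, ∀ᶠ X : ℝ in atTop, primeSum χ X ≤ -(1 / 2) * Real.log (Real.log X) + C) ∧
    List.TFAE [
      ∀ s : ℝ, 0 < s → s < 1 → (χ.LFunction (s : ℂ)).im = 0 ∧ 0 < (χ.LFunction (s : ℂ)).re,
      ∃ C : ℝ, ∀ᶠ X : ℝ in atTop, |primeSum χ X + 1 / 2 * Real.log (Real.log X) -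
        (Real.log (χ.LFunction (1 / 2)).re + const χ)| ≤ C / Real.log X,
      ∃ c < (3 / 2 : ℝ), ∃ X : ℕ → ℝ, Tendsto X atTop atTop ∧
        ∀ n, -c * Real.log (Real.log (X n)) ≤ primeSum χ (X n)] ∧
    (∀ (r : ℕ) (ℓ : ℂ), ℓ ≠ 0 →
      Tendsto (fun s : ℂ => χ.LFunction s / (s - 1 / 2) ^ r) (𝓝[≠] (1 / 2)) (𝓝 ℓ) →
      (∀ s : ℝ, 1 / 2 < s → s < 1 → χ.LFunction (s : ℂ) ≠ 0) →
      ∃ C : ℝ, ∀ᶠ X : ℝ in atTop, |primeSum χ X + (r + 1 / 2) * Real.log (Real.log X) -
        (Real.log ‖ℓ‖ + r * kappa + const χ)| ≤ C / Real.log X) ∧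
    (∀ β : ℝ, 1 / 2 < β → β < 1 → χ.LFunction (β : ℂ) = 0 →
      (∀ s : ℝ, β < s → s < 1 → χ.LFunction (s : ℂ) ≠ 0) →
      ∀ e < β - 1 / 2, ∀ᶠ X : ℝ in atTop, primeSum χ X ≤ -Real.exp (X ^ e)) := by
  have hP : ∀ X, primeSum χ X = Pool.Agent.U745.RZ.primeSum χ X := fun X => rfl
  have hK : kappa = Pool.Agent.W189.LC.kap := rfl
  have hC : const χ = Pool.Agent.U745.RZ.cc χ := rfl
  have hlim : ∀ {f : ℝ → ℝ} {b : ℝ}, (∃ C : ℝ, ∀ᶠ X : ℝ in atTop, |f X - b| ≤ C / Real.log X) →
      Tendsto f atTop (𝓝 b) := by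
    rintro f b ⟨C, hC⟩
    rw [tendsto_iff_norm_sub_tendsto_zero]
    refine squeeze_zero' (g := fun X => C / Real.log X) (Eventually.of_forall fun X => norm_nonneg _)
      hC ?_
    exact tendsto_const_nhds.div_atTop Real.tendsto_log_atTop
  have hfree : ∀ (r : ℕ) (ℓ : ℂ), ℓ ≠ 0 →
      Tendsto (fun s : ℂ => χ.LFunction s / (s - 1 / 2) ^ r) (𝓝[≠] (1 / 2)) (𝓝 ℓ) →
      (∀ s : ℝ, 1 / 2 < s → s < 1 → χ.LFunction (s : ℂ) ≠ 0) →
      ∃ C : ℝ, ∀ᶠ X : ℝ in atTop, |primeSum χ X + (r + 1 / 2) * Real.log (Real.log X) -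
        (Real.log ‖ℓ‖ + r * kappa + const χ)| ≤ C / Real.log X := by
    intro r ℓ hℓ hr hz
    have hm : MeromorphicAt χ.LFunction (1 / 2) :=
      ((DirichletCharacter.differentiable_LFunction h1).analyticAt _).meromorphicAt
    have h3 := (Pool.Agent.U745.LT.leading_iff hm (ρ := (r : ℤ)) hℓ).1 (by
      unfold Pool.Agent.U745.LT.Leading
      refine hr.congr fun s => ?_
      rw [zpow_neg, zpow_natCast, div_eq_mul_inv, mul_comm])
    obtain ⟨C, hC'⟩ := Pool.Agent.U745.RZ.free_case h1 h2 hz h3.1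
    refine ⟨C, ?_⟩
    filter_upwards [hC'] with X hX
    rw [h3.2] at hX
    rw [hP, hK, hC]
    exact_mod_cast hX
  have hrange : (∀ s : ℝ, 1 / 2 ≤ s → s < 1 → χ.LFunction (s : ℂ) ≠ 0) → ∃ C : ℝ,
      ∀ᶠ X : ℝ in atTop, |primeSum χ X + 1 / 2 * Real.log (Real.log X) -
        (Real.log (χ.LFunction (1 / 2)).re + const χ)| ≤ C / Real.log X := by
    intro hz
    have hpos := Pool.Agent.U745.RZ.pos_of_ne h1 h2 hz (1 / 2) (by norm_num)
    have e1 : (((1 / 2 : ℝ)) : ℂ) = 1 / 2 := by push_cast; rfl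
    rw [e1] at hpos
    have e2 : χ.LFunction (1 / 2) = (((χ.LFunction (1 / 2)).re : ℝ) : ℂ) := by
      apply Complex.ext
      · simp
      · rw [hpos.1]; simp
    have hne : χ.LFunction (1 / 2) ≠ 0 := by
      intro h
      rw [h] at hpos
      simp at hpos
    have hcont : Continuous χ.LFunction :=
      (DirichletCharacter.differentiable_LFunction h1).continuous
    obtain ⟨C, hC'⟩ := hfree 0 (χ.LFunction (1 / 2)) hne (by
      have h4 : Tendsto χ.LFunction (𝓝[≠] (1 / 2)) (𝓝 (χ.LFunction (1 / 2))) :=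
        (hcont.tendsto _).mono_left nhdsWithin_le_nhds
      refine h4.congr fun s => ?_
      rw [pow_zero, div_one]) (fun s hs hs1 => hz s hs.le hs1)
    refine ⟨C, ?_⟩
    filter_upwards [hC'] with X hX
    have e3 : ‖χ.LFunction (1 / 2)‖ = (χ.LFunction (1 / 2)).re := by
      rw [e2, Complex.norm_real, Complex.ofReal_re, Real.norm_of_nonneg hpos.2.le]
    rw [e3] at hX
    simpa using hX
  refine ⟨⟨fun X hX => Pool.Agent.U745.RZ.summable_primeSum h1 h2 hX, ?_⟩, ?_, hfree, ?_⟩
  · rcases Pool.Agent.U745.RZ.cases3 h1 h2 with h | ⟨C, h⟩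
    · have h3 := hlim (hrange h)
      set b := Real.log (χ.LFunction (1 / 2)).re + const χ
      refine ⟨b + 1, ?_⟩
      filter_upwards [h3.eventually (eventually_le_nhds (show b < b + 1 by linarith))] with X hX
      linarith
    · refine ⟨C, ?_⟩
      filter_upwards [h, Pool.Agent.U745.RZ.tendsto_loglog.eventually (eventually_ge_atTop 0)]
        with X hX h4
      rw [hP]
      linarith
  · tfae_have 1 → 2 := by
      intro h
      refine hrange fun s hs hs1 h0 => ?_
      have h3 := h s (by linarith) hs1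
      rw [h0] at h3
      simp at h3
    tfae_have 2 → 3 := by
      intro h
      have h3 := hlim h
      set b := Real.log (χ.LFunction (1 / 2)).re + const χ
      have h4 : ∀ᶠ X : ℝ in atTop, -1 * Real.log (Real.log X) ≤ primeSum χ X := by
        filter_upwards [h3.eventually (eventually_ge_nhds (show b - 1 < b by linarith)),
          Pool.Agent.U745.RZ.tendsto_loglog.eventually (eventually_ge_atTop (2 * (1 - b)))]
          with X h5 h6
        linarith
      obtain ⟨X₀, hX₀⟩ := eventually_atTop.1 h4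
      refine ⟨1, by norm_num, fun n => X₀ + n, ?_, fun n => hX₀ _ ?_⟩
      · exact tendsto_atTop_add_const_left _ _ tendsto_natCast_atTop_atTop
      · have : (0 : ℝ) ≤ n := Nat.cast_nonneg n
        linarith
    tfae_have 3 → 1 := by
      rintro ⟨c, hc, X, hX, hcX⟩
      rcases Pool.Agent.U745.RZ.cases3 h1 h2 with h | ⟨C, h⟩
      · intro s hs0 _
        exact Pool.Agent.U745.RZ.pos_of_ne h1 h2 h s hs0
      · exfalso
        have h3 := hX.eventually h
        have h4 := hX.eventually (Pool.Agent.U745.RZ.tendsto_loglog.eventually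
          (eventually_gt_atTop (C / (3 / 2 - c))))
        obtain ⟨n, h5, h6⟩ := (h3.and h4).exists
        have h7 := hcX n
        rw [hP] at h7
        rw [div_lt_iff₀ (by linarith)] at h6
        linarith
    tfae_finish
  · intro β hβ hβ1 hβ0 hz e he
    filter_upwards [Pool.Agent.U745.RZ.blocked_case h1 h2 hβ hβ1 hβ0 hz he] with X hX
    rw [hP]
    exact hX

end Pool.Agent.Results.MP_0016c7_nt.PrimeSumCriterion
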